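import Pool.Agent.Y798.FC.Stm4
import Pool.Agent.Y798.FC.Vol2

/-!
# Project FC (helper798), job FC2-EXT

The Weyl law has no extremal moments.
-/

set_option autoImplicit false

namespace Pool.Agent.Y606.FC2

open MeasureTheory UnitAddTorus Pool.Agent.Y139.ID Pool.Agent.Y798.FC Filter Topology ComplexConjugate

variable {J : Type} [Fintype J]

theorem exists_unimod (I : ℂ) : ∃ u : ℂ, ‖u‖ = 1 ∧ u * I = (‖I‖ : ℂ) := by
  by_cases h : I = 0
  · exact ⟨1, by simp, by simp [h]⟩
  · have hn : (‖I‖ : ℂ) ≠ 0 := by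
      exact_mod_cast (norm_ne_zero_iff.2 h)
    refine ⟨conj I / ‖I‖, ?_, ?_⟩
    · rw [norm_div, RCLike.norm_conj, Complex.norm_real, norm_norm]
      exact div_self (norm_ne_zero_iff.2 h)
    · rw [div_mul_eq_mul_div, div_eq_iff hn, mul_comm (conj I) I, Complex.mul_conj,
        Complex.normSq_eq_norm_sq]
      push_cast
      ring

/-- a nontrivial character has mean less than the mass -/
theorem key {Φ : Finset (J → ℤ)} (h0 : ∀ α ∈ Φ, α ≠ 0) {ν : J → ℤ} (hν : ν ≠ 0) :
    ‖∫ x, mFourier ν x * (dens Φ x : ℂ) ∂(vol J)‖ < ∫ x, dens Φ x ∂(vol J) := by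
  have hcd := continuous_dens Φ
  have hcF : Continuous fun x => mFourier ν x := by fun_prop
  obtain ⟨u, hu, huI⟩ := exists_unimod (∫ x, mFourier ν x * (dens Φ x : ℂ) ∂(vol J))
  have hre : ∀ x, (u * mFourier ν x).re ≤ 1 := by
    intro x
    refine (Complex.re_le_norm _).trans ?_
    rw [norm_mul, hu, norm_mF, one_mul]
  have h1 : ∫ x, (u * mFourier ν x).re * dens Φ x ∂(vol J) =
      ‖∫ x, mFourier ν x * (dens Φ x : ℂ) ∂(vol J)‖ := by
    have h2 : ∀ x, (u * mFourier ν x).re * dens Φ x =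
        (u * (mFourier ν x * (dens Φ x : ℂ))).re := by
      intro x
      rw [← mul_assoc, Complex.re_mul_ofReal]
    simp only [h2]
    have h3 : ∫ x, (u * (mFourier ν x * (dens Φ x : ℂ))).re ∂(vol J) =
        (∫ x, u * (mFourier ν x * (dens Φ x : ℂ)) ∂(vol J)).re :=
      integral_re (integrable_cont _
        (show Continuous fun x => u * (mFourier ν x * (dens Φ x : ℂ)) by fun_prop))
    rw [h3, integral_const_mul, huI, Complex.ofReal_re]
  have h4 : ∫ x, (1 - (u * mFourier ν x).re) * dens Φ x ∂(vol J) =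
      (∫ x, dens Φ x ∂(vol J)) - ‖∫ x, mFourier ν x * (dens Φ x : ℂ) ∂(vol J)‖ := by
    rw [← h1, ← integral_sub (integrable_cont_real _ hcd)
      (integrable_cont_real _ (by fun_prop))]
    refine integral_congr_ae (Eventually.of_forall fun x => ?_)
    simp only
    ring
  have hnn : ∀ x, 0 ≤ (1 - (u * mFourier ν x).re) * dens Φ x := fun x =>
    mul_nonneg (sub_nonneg.2 (hre x)) (dens_nonneg Φ x)
  have h5 : 0 ≤ ∫ x, (1 - (u * mFourier ν x).re) * dens Φ x ∂(vol J) := integral_nonneg hnn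
  rcases h5.lt_or_eq with h6 | h6
  · linarith
  · exfalso
    have h7 := (integral_eq_zero_iff_of_nonneg hnn
      (integrable_cont_real _ (by fun_prop))).1 h6.symm
    have h8 : ∀ᵐ x ∂(vol J), (u * mFourier ν x).re = 1 := by
      filter_upwards [h7, null_dens h0] with x hx hx'
      simp only [Pi.zero_apply] at hx
      rcases mul_eq_zero.1 hx with h | h
      · linarith
      · exact absurd h hx'.ne'
    have h9 : ∫ x, (u * mFourier ν x).re ∂(vol J) = 1 := by
      rw [integral_congr_ae h8]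
      simp
    have h10 : ∫ x, (u * mFourier ν x).re ∂(vol J) = (∫ x, u * mFourier ν x ∂(vol J)).re :=
      integral_re (integrable_cont _ (show Continuous fun x => u * mFourier ν x by fun_prop))
    rw [h10, integral_const_mul, int_mFourier, if_neg hν, mul_zero, Complex.zero_re] at h9
    exact zero_ne_one h9

theorem t : StmExt := by
  intro J _ W Φ hW μ hμ
  classical
  have := hW.fin
  have hfin : (orbS W μ).Finite := by
    have : orbS W μ = Set.range fun w : W => (w : Auts J) μ := by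
      ext ν
      constructor
      · rintro ⟨w, hw, h⟩
        exact ⟨⟨w, hw⟩, h⟩
      · rintro ⟨w, h⟩
        exact ⟨w.1, w.2, h⟩
    rw [this]
    exact Set.finite_range _
  have hne : ∀ ν ∈ hfin.toFinset, ν ≠ 0 := by
    intro ν hν h
    rw [Set.Finite.mem_toFinset] at hν
    obtain ⟨w, -, hw⟩ := hν
    rw [h] at hw
    exact hμ (w.injective (by rw [hw, map_zero]))
  have hnon : hfin.toFinset.Nonempty :=
    ⟨μ, by rw [Set.Finite.mem_toFinset]; exact ⟨1, W.one_mem, rfl⟩⟩
  have hs : ∀ x, msum W μ x * (dens Φ x : ℂ) =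
      ∑ ν ∈ hfin.toFinset, mFourier ν x * (dens Φ x : ℂ) := by
    intro x
    unfold msum
    rw [finsum_mem_eq_finite_toFinset_sum _ hfin, Finset.sum_mul]
  have hcd := continuous_dens Φ
  simp only [hs]
  rw [integral_finsetSum _ fun ν _ => integrable_cont _ (by fun_prop)]
  have hc : 0 < (Nat.card W : ℝ) := by
    exact_mod_cast Nat.card_pos
  have h1 : ‖∑ ν ∈ hfin.toFinset, ∫ x, mFourier ν x * (dens Φ x : ℂ) ∂(vol J)‖ <
      hfin.toFinset.card * (Nat.card W : ℝ) := by
    refine (norm_sum_le _ _).trans_lt ?_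
    refine (Finset.sum_lt_sum_of_nonempty hnon fun ν hν => key hW.ne_zero (hne ν hν)).trans_eq ?_
    rw [Finset.sum_const, nsmul_eq_mul, hW.mass]
  rw [norm_mul, norm_inv, Complex.norm_natCast, Set.ncard_eq_toFinset_card _ hfin]
  rw [inv_mul_lt_iff₀ hc, mul_comm]
  exact h1

end Pool.Agent.Y606.FC2
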